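import Mathlib
import Pool.Agent.T2h83.AM.Lin6

/-!
# Primes `p` with `4 p + 1 + s` prime, for `s` in all the residue classes of almost all moduli

For almost all moduli `q`, up to `N / log ^ B N`, and for EVERY residue class modulo `q`, almost all the even `s ≤ N` in this
class (for the largest moduli only `log ^ B N` numbers) satisfy the conjecture of Hardy and Littlewood on the number of the
primes `p ≤ N` for which `4 p + 1 + s` is prime. In particular this holds for almost all the even multiples `s` of `q`.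

Method: large values of the exponential sum of `Λ` minus a sieve model on the translates `β + c / q` are counted for all
moduli at once (large sieve on cells, Fejer kernels), which gives the mean square in ALL residue classes of almost all
moduli; the main term is from the starting files (`Pool.Agent.H373R2.T7`).
-/

set_option autoImplicit false

namespace Pool.Agent.Results.MP_3df474_nt.AllClassesAlmostAllModuli

open Finset Filter

/-- the number of the primes `p ≤ N` for which `4 p + 1 + s` is prime -/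
def pairs (s N : ℕ) : ℕ := ((Icc 1 N).filter (fun p : ℕ => p.Prime ∧ (4 * p + 1 + s).Prime)).card

/-- twice the product over the primes `2 < l ≤ z` of `l / (l - 1)` for the divisors `l` of `1 + s` and of
`l (l - 2) / (l - 1) ^ 2` for the other primes `l` -/
noncomputable def constant (s z : ℕ) : ℝ :=
  2 * ∏ l ∈ (Icc 3 z).filter Nat.Prime, if l ∣ 1 + s then (l : ℝ) / (l - 1) else (l : ℝ) * (l - 2) / (l - 1) ^ 2

/-- for even `s`: the asymptotic formula for `pairs s N`, up to the factors `1 ± ε`, with the limit `S ≥ κ` of `constant s z`,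
`z → ∞` -/
def Predicted (κ ε : ℝ) (N s : ℕ) : Prop :=
  Even s → ∃ S : ℝ, κ ≤ S ∧ Tendsto (constant s) atTop (nhds S) ∧
    |(pairs s N : ℝ) - S * N / Real.log N ^ 2| ≤ ε * (S * N / Real.log N ^ 2)

open Pool.Agent.T2h83.AM in
lemma nu_odd (h l : ℕ) (hl : l.Prime) (h3 : 3 ≤ l) :
    nuL (fun _ : Fin 1 => 4) (fun _ => h) l = if l ∣ h then 1 else 2 := by
  have : Fact l.Prime := ⟨hl⟩
  have h4 : ¬ l ∣ 4 := by
    intro hd
    have h5 : l ∣ 2 ^ 2 := by simpa using hd
    have := Nat.le_of_dvd (by norm_num) (hl.dvd_of_dvd_pow h5)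
    omega
  split_ifs with hd
  · unfold nuL
    rw [card_eq_one]
    refine ⟨0, ?_⟩
    ext n
    rw [mem_filter, mem_range, mem_singleton]
    constructor
    · rintro ⟨h1, h2 | ⟨i, hi⟩⟩
      · exact Nat.eq_zero_of_dvd_of_lt h2 h1
      · have h5 : l ∣ 4 * n := (Nat.dvd_add_left hd).1 hi
        exact Nat.eq_zero_of_dvd_of_lt ((hl.dvd_mul.1 h5).resolve_left h4) h1
    · rintro rfl
      exact ⟨hl.pos, Or.inl (dvd_zero _)⟩
  · have h1 := nuL_le (k := 1) (fun _ : Fin 1 => 4) (fun _ => h) l hl (fun _ h => h4 h.1)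
    have hh : 1 ≤ h := Nat.pos_of_ne_zero (fun h0 => hd (h0 ▸ dvd_zero _))
    have h2 := nuL_good (k := 1) (fun _ : Fin 1 => 4) (fun _ => h)
      ⟨fun _ => hh, fun i j hij => absurd (Subsingleton.elim i j) hij⟩ l hl (fun _ => h4) (by
        unfold badL
        rw [mem_union, mem_biUnion, mem_biUnion]
        rintro (⟨i, -, hi⟩ | ⟨t, ht, -⟩)
        · exact hd (Nat.dvd_of_mem_primeFactors hi)
        · rw [mem_filter] at ht
          exact ht.2 (Subsingleton.elim _ _))
    omega

open Pool.Agent.T2h83.AM in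
lemma nu_two (h : ℕ) (hh : Odd h) : nuL (fun _ : Fin 1 => 4) (fun _ => h) 2 = 1 := by
  unfold nuL
  rw [card_eq_one]
  refine ⟨0, ?_⟩
  ext n
  rw [mem_filter, mem_range, mem_singleton]
  constructor
  · rintro ⟨h1, h2 | ⟨i, hi⟩⟩
    · exact Nat.eq_zero_of_dvd_of_lt h2 h1
    · obtain ⟨m, rfl⟩ := hh
      simp only at hi
      omega
  · rintro rfl
    exact ⟨by norm_num, Or.inl (dvd_zero _)⟩

open Pool.Agent.T2h83.AM in
lemma constant_eq (s z : ℕ) (hs : Even s) (hz : 2 ≤ z) : sgL (fun _ : Fin 1 => 4) (fun _ => 1 + s) z = constant s z := by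
  unfold sgL constant Pool.Agent.H373R2.T7.pz
  have h1 : (Icc 1 z).filter Nat.Prime = insert 2 ((Icc 3 z).filter Nat.Prime) := by
    ext p
    rw [mem_insert, mem_filter, mem_filter, mem_Icc, mem_Icc]
    constructor
    · rintro ⟨⟨h1, h2⟩, h3⟩
      have := h3.two_le
      rcases Nat.eq_or_lt_of_le this with h4 | h4
      · exact Or.inl h4.symm
      · exact Or.inr ⟨⟨h4, h2⟩, h3⟩
    · rintro (rfl | ⟨⟨h1, h2⟩, h3⟩)
      · exact ⟨⟨by norm_num, hz⟩, Nat.prime_two⟩
      · exact ⟨⟨by omega, h2⟩, h3⟩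
  rw [h1, prod_insert (by
    intro h2
    rw [mem_filter, mem_Icc] at h2
    omega)]
  congr 1
  · unfold FpL
    rw [nu_two _ (by rw [add_comm]; exact hs.add_one)]
    norm_num
  · refine prod_congr rfl fun l hl => ?_
    rw [mem_filter, mem_Icc] at hl
    unfold FpL
    rw [nu_odd _ _ hl.2 hl.1.1]
    have hl3 : (3 : ℝ) ≤ l := by exact_mod_cast hl.1.1
    have e1 : (l : ℝ) - 1 ≠ 0 := by
      have : (0 : ℝ) < l - 1 := by linarith
      exact this.ne'
    have e2 : (l : ℝ) ≠ 0 := by positivity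
    have e3 : (1 : ℝ) - 1 / l = (l - 1) / l := by field_simp
    rw [e3]
    split_ifs
    · push_cast
      field_simp
    · push_cast
      field_simp

lemma adm (s : ℕ) (hs : Even s) : Pool.Agent.T2h83.AM.AdmL (fun _ : Fin 1 => 4) (fun _ => 1 + s) := by
  intro l hl
  by_cases h2 : l = 2
  · subst h2
    refine ⟨1, by norm_num, fun _ => ?_⟩
    obtain ⟨m, rfl⟩ := hs
    simp only
    omega
  · have h3 : 3 ≤ l := by
      have := hl.two_le
      omega
    have h1 : Pool.Agent.T2h83.AM.nuL (fun _ : Fin 1 => 4) (fun _ => 1 + s) l ≤ 2 := by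
      rw [nu_odd _ _ hl h3]
      split_ifs <;> norm_num
    by_contra hcon
    push Not at hcon
    have h4 : Pool.Agent.T2h83.AM.nuL (fun _ : Fin 1 => 4) (fun _ => 1 + s) l = l := by
      unfold Pool.Agent.T2h83.AM.nuL
      rw [filter_true_of_mem, card_range]
      intro n _
      by_cases h5 : l ∣ n
      · exact Or.inl h5
      · exact Or.inr (hcon n h5)
    omega

/-- There is a constant `κ > 0` such that for all `A` and `ε > 0` there are `B` and `N₀` with the following property. Let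
`N ≥ N₀` and let `Q` be an integer with `Q log ^ B N ≤ N`. For all `q` in `(Q, 2 Q]`, except for at most `Q / log ^ A N` of
them, and for ALL residues `0 ≤ r < q` the following holds for all the even numbers `s = r + q j`, `0 ≤ j ≤ N / q`, except
for at most the proportion `1 / log ^ A N` of the `j`: the number of the primes `p ≤ N` for which `4 p + 1 + s` is prime lies
between `(1 - ε) S N / log ^ 2 N` and `(1 + ε) S N / log ^ 2 N`, where `S ≥ κ` is twice the product over the primes `l > 2` of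
`l / (l - 1)` if `l` divides `1 + s` and of `l (l - 2) / (l - 1) ^ 2` if not. -/
theorem result : ∃ κ : ℝ, 0 < κ ∧ ∀ (A : ℕ) (ε : ℝ), 0 < ε → ∃ B N₀ : ℕ, ∀ N : ℕ, N₀ ≤ N →
    ∀ Q : ℕ, (Q : ℝ) * Real.log N ^ B ≤ N → ∃ E : Finset ℕ, (E.card : ℝ) ≤ Q / Real.log N ^ A ∧
      ∀ q ∈ Ioc Q (2 * Q), q ∉ E → ∀ r < q, ∃ D : Finset ℕ, (D.card : ℝ) ≤ ((N / q + 1 : ℕ) : ℝ) / Real.log N ^ A ∧
        ∀ j ≤ N / q, j ∉ D → Predicted κ ε N (r + q * j) := by
  classical
  obtain ⟨κ, hκ, hmain⟩ := Pool.Agent.T2h83.AM.lin_count (k := 1) (fun _ => 4) (fun _ => by norm_num)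
  refine ⟨κ, hκ, fun A ε hε => ?_⟩
  obtain ⟨B, N₁, h1⟩ := hmain A ε hε
  obtain ⟨N₂, h2⟩ := Pool.Agent.H373R2.T7.ev_L' 4
  refine ⟨B + 1, N₁ + N₂ + 3, fun N hN Q hQ => ?_⟩
  have hL := h2 N (by omega)
  have hL1 : 1 ≤ Real.log N := by linarith
  obtain ⟨E, e1, e2⟩ := h1 N (by omega) Q ((mul_le_mul_of_nonneg_left (pow_le_pow_right₀ hL1 (by omega))
    (Nat.cast_nonneg _)).trans hQ)
  refine ⟨E, e1, fun q hq hqE r hr => ?_⟩
  have hQN : 4 * Q ≤ N := by
    have h3 : (Q : ℝ) * 4 ≤ N := by
      refine le_trans (mul_le_mul_of_nonneg_left ?_ (Nat.cast_nonneg _)) hQ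
      calc (4 : ℝ) ≤ Real.log N ^ 1 := by rw [pow_one]; exact hL
        _ ≤ _ := pow_le_pow_right₀ hL1 (by omega)
    have : ((4 * Q : ℕ) : ℝ) ≤ N := by push_cast; linarith
    exact_mod_cast this
  have h3 := e2 q hq hqE (fun _ => 1 + r) (fun _ => by
    rw [mem_Ioc] at hq
    omega)
  rw [pow_one] at h3
  refine ⟨(((Fintype.piFinset (fun _ : Fin 1 => range (N / q + 1))).filter
        (fun j => ¬ Pool.Agent.T2h83.AM.GoodC ε κ N (fun _ : Fin 1 => 4)
          (fun i => 1 + r + q * j i)))).image (fun j => j 0), ?_, fun j hj hjD hs => ?_⟩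
  · refine le_trans ?_ h3
    exact_mod_cast card_image_le
  have h4 : Pool.Agent.T2h83.AM.GoodC ε κ N (fun _ : Fin 1 => 4) (fun _ => 1 + (r + q * j)) := by
    by_contra hcon
    apply hjD
    rw [mem_image]
    refine ⟨fun _ => j, ?_, rfl⟩
    rw [mem_filter, Fintype.mem_piFinset]
    refine ⟨fun _ => mem_range.2 (by omega), ?_⟩
    simpa only [add_assoc] using hcon
  obtain ⟨s, hsd⟩ : ∃ s, s = r + q * j := ⟨_, rfl⟩
  rw [← hsd] at h4 hs ⊢
  obtain ⟨S, g1, g2, g3⟩ := h4 (adm s hs)
  refine ⟨S, g1, ?_, ?_⟩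
  · refine g2.congr' ?_
    filter_upwards [eventually_ge_atTop 2] with z hz
    exact constant_eq s z hs hz
  · have : Pool.Agent.T2h83.AM.cntL (fun _ : Fin 1 => 4) (fun _ => 1 + s) N = pairs s N := by
      unfold Pool.Agent.T2h83.AM.cntL pairs
      congr 1
      ext p
      rw [mem_filter, mem_filter]
      refine and_congr_right fun _ => and_congr_right fun _ => ?_
      constructor
      · intro h
        have := h 0
        rwa [← add_assoc] at this
      · intro h _
        rwa [← add_assoc]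
    rw [this] at g3
    exact g3

end Pool.Agent.Results.MP_3df474_nt.AllClassesAlmostAllModuli
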