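import Mathlib
import Pool.Agent.T2h83.US.Odd

/-!
# Prime values of the forms `4 p + h` at the elements `p` of arbitrary sets of primes

The question asks for infinitely many primes `p` with `4 p + 1` prime. Let `U` be ANY set of at least `x / (log x) ^ A` primes
up to `x`. We replace `1` by `k` odd shifts `h` and prove that for all vectors of shifts, outside an exceptional set of
relative size `ε`, at least `(1 - ε) #U / (V(y) log x) ^ k` elements `p` of `U` have all the numbers `4 p + h i` prime, where
`V(y)` is the product of the `1 - 1 / l` over the primes `l ≤ y`; the shifts are odd multiples of all the odd primes up to `y`,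
where `y` is a multiple of `log log x`. The shifts run over residue classes modulo almost all moduli up to
`x / (log x) ^ B`, where the classes have only a power of `log x` elements. Nothing is assumed about the set `U`.

Method: for the elements of `U` and the shifts of a class the von Mangoldt function is replaced by a sieve model (large sieve
over the cells of almost all moduli, project AM); the second moment of the number of the `p ∈ U` for which `4 p + h` has no
small prime factor, over the shifts of the class, is found by the fundamental lemma of the sieve and averages over the pairs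
of elements of `U`. For several shifts the result for one shift is applied to the subsets found before.
-/

set_option autoImplicit false

namespace Pool.Agent.Results.MP_3df474_nt.ArbitrarySetsOfPrimes

open Finset

/-- the product of the odd primes up to `y` -/
def W (y : ℕ) : ℕ := ∏ p ∈ (Icc 3 y).filter Nat.Prime, p

/-- the product of the `1 - 1 / p` over the primes `p ≤ y` -/
noncomputable def V (y : ℕ) : ℝ := ∏ p ∈ (Icc 1 y).filter Nat.Prime, (1 - 1 / (p : ℝ))

/-- the integers `1 ≤ m ≤ x / (2 W y)`, `m ≡ r (mod q)`; their shifts are the numbers `W y * (2 m + 1)` -/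
def class' (x y q r : ℕ) : Finset ℕ := (Icc 1 x).filter (fun m => 2 * W y * m ≤ x ∧ m ≡ r [MOD q])

/-- the number of the elements `p` of `U` for which all the numbers `4 p + W y * (2 m i + 1)` are prime -/
def hits {k : ℕ} (U : Finset ℕ) (y : ℕ) (m : Fin k → ℕ) : ℕ :=
  (U.filter (fun p => ∀ i, (4 * p + W y * (2 * m i + 1)).Prime)).card

/-- Let `k`, `A`, `T` be natural numbers and `0 < ε ≤ 1`. There is `K₀` such that for every `K₁` there are `B` and `x₀` such
that for all `x ≥ x₀`, all `y` between `K₀ log log x` and `K₁ log log x` and all integers `Q` with `Q (log x) ^ B ≤ x` there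
is a set `E` of at most `Q / (log x) ^ T` integers such that the following holds for all `q 1, …, q k` in `(Q, 2 Q]` outside
`E` and all residue classes `r i` modulo `q i` for which the prime factors `p` of `q i`, `y < p ≤ (log x) ^ B`, divide
`2 r i + 1` (for instance, all classes if the `q i` are primes larger than `(log x) ^ B`). For EVERY set `U` of at least `x / (log x) ^ A` primes up to
`x`, for all vectors of `m i ≤ x / (2 W y)`, `m i ≡ r i (mod q i)`, except for at most `ε` times the product of the
`x / (2 W y q i)`, at least `(1 - ε) #U / (V y log x) ^ k` elements `p` of `U` have all the numbers `4 p + W y (2 m i + 1)`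
prime. -/
theorem result (k A T : ℕ) (ε : ℝ) (hε : 0 < ε) (hε1 : ε ≤ 1) : ∃ K₀ : ℕ, ∀ K₁ : ℕ, ∃ B x₀ : ℕ, ∀ x : ℕ, x₀ ≤ x →
    ∀ y : ℕ, K₀ * Real.log (Real.log x) ≤ y → (y : ℝ) ≤ K₁ * Real.log (Real.log x) →
    ∀ Q : ℕ, (Q : ℝ) * Real.log x ^ B ≤ x →
    ∃ E : Finset ℕ, (E.card : ℝ) ≤ Q / Real.log x ^ T ∧ ∀ q r : Fin k → ℕ,
      (∀ i, q i ∈ Ioc Q (2 * Q) ∧ q i ∉ E) →
      (∀ i, ∀ p : ℕ, p.Prime → y < p → (p : ℝ) ≤ Real.log x ^ B → p ∣ q i → p ∣ 2 * r i + 1) →
      ∀ U : Finset ℕ, (∀ p ∈ U, p.Prime ∧ p ≤ x) → (x : ℝ) ≤ U.card * Real.log x ^ A →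
        (((Fintype.piFinset (fun i => class' x y (q i) (r i))).filter (fun m =>
          (hits U y m : ℝ) < (1 - ε) * (U.card / (V y * Real.log x) ^ k))).card : ℝ) ≤
          ε * ∏ i, (x / (2 * W y * q i) : ℝ) := by
  classical
  obtain ⟨K₀, h1⟩ := Pool.Agent.T2h83.US.us_vec k 4 A T ε hε hε1
  refine ⟨K₀ + 1, fun K₁ => ?_⟩
  obtain ⟨B, x₁, h2⟩ := h1 K₁
  obtain ⟨x₂, h3⟩ := Pool.Agent.T2h83.US.sizes K₁ 2
  obtain ⟨x₃, h4⟩ := Pool.Agent.H373R2.T7.ev_L' (Real.exp 1)
  refine ⟨B, x₁ + x₂ + x₃, fun x hx y hy1 hy2 Q hQ => ?_⟩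
  have hL := h4 x (by omega)
  have hlL : 0 ≤ Real.log (Real.log x) := by
    apply Real.log_nonneg
    have := Real.add_one_le_exp (1 : ℝ)
    linarith
  have hK0 : (0 : ℝ) ≤ K₀ := Nat.cast_nonneg _
  push_cast at hy1
  obtain ⟨hy, hWx⟩ := h3 x (by omega) y (by nlinarith) hy2
  obtain ⟨E, hE1, hE2⟩ := h2 x (by omega) y (by linarith) hy2 Q hQ
  refine ⟨E, hE1, fun q r hq hr U hU hUc => ?_⟩
  have hW : Pool.Agent.T2h83.US.oddP y = W y := rfl
  have hM : primorial y = 2 * W y := Pool.Agent.T2h83.US.primorial_odd y hy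
  have hMr : ((primorial y : ℕ) : ℝ) = 2 * (W y : ℝ) := by rw [hM]; push_cast; ring
  have h5 := hE2 (fun _ => 4) (fun _ => W y) r q hq (fun _ => ⟨by norm_num, le_rfl, hWx⟩) (fun _ l s hl hly hs hys => by
      have := Pool.Agent.T2h83.US.loc_odd y 2 l s (by norm_num) hl hly hs hys
      exact this)
    (fun i p hp hyp hpL hpq => Pool.Agent.T2h83.US.cls_odd y p (r i) hy (hr i p hp hyp hpL hpq)) U
    (fun p hp => mem_Icc.2 ⟨(hU p hp).1.one_le, (hU p hp).2⟩) (fun p hp => (hU p hp).1) hUc
  rw [hM] at h5
  refine le_trans (le_trans ((Nat.cast_le (α := ℝ)).2 (card_le_card fun m hm => ?_)) h5) (le_of_eq ?_)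
  · rw [mem_filter, Fintype.mem_piFinset] at hm ⊢
    refine ⟨fun i => ?_, lt_of_le_of_lt (le_of_eq ?_) hm.2⟩
    · have := hm.1 i
      unfold class' at this
      unfold Pool.Agent.T2h83.US.cls
      rw [hM]
      exact this
    · unfold hits
      congr 2
      apply filter_congr
      intro p _
      refine forall_congr' fun i => ?_
      have : 4 * p + (2 * W y * m i + W y) = 4 * p + W y * (2 * m i + 1) := by ring
      rw [this]
  · push_cast
    rfl

end Pool.Agent.Results.MP_3df474_nt.ArbitrarySetsOfPrimes
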