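import Pool.Agent.T2h83.GD.LeastM

/-!
# Primes `p` for which `4 p + 1 + s` is prime: almost all shifts `s` in the residue classes of every odd modulus up to
# `N ^ (5 / 6 - ρ)`

The problem asks for primes `p` with `4 p + 1` prime. We replace `4 p + 1` by `4 p + 1 + s` with an even shift `s`
which runs through a residue class `a` of a modulus `q`, where `q` can be as large as the power `5 / 6 - ρ` of the
range of `p`; the problem itself is `s = 0`, and the class `a = 0` is always admitted.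

For `1 ≤ u ≤ 3` let `F(u) = log u + ∫_1^(u/2) log ((u - s) / s) ds / s` (the integral is absent for `u ≤ 2`).
Let `2 / 3 ≤ θ ≤ 5 / 6` and `F = F (θ / (2 - 2 θ))`, so that `0 ≤ F ≤ 0.965`. For every modulus `q ≤ N ^ (θ - ρ)` which
is the product of a number `q₁ ≤ (log N) ^ T` and of an odd number `q₂`, and for every residue class `a` with
`gcd(a + 1, q) ≤ (log N) ^ T`, all but at most `N / (q (log N) ^ A)` of the even shifts `s < N`, `s ≡ a (mod q)`, have
the following property: every window `(u, v] ⊆ (0, N]` of length at least `N / (log N) ^ A` contains between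
`1 - F² - ε` times and `1 + F + ε` times the predicted number of the primes `p` with `4 p + 1 + s` prime. Hence for each
odd modulus `q` and each class `a` modulo `q` with `gcd(a + 1, q) ≤ (log q) ^ T` there are an even shift
`s ≡ a (mod q)` and a prime `p` such that `4 p + 1 + s` is a prime at most `q ^ (6 / 5 + ε)`.

The proof (projects GT and GD, `T2h83/GT`, `T2h83/GD`) compares the primes with the sieve function
`1_{no prime factor ≤ N ^ (1 - θ)}(n) * Σ_{d ∣ n, d > N ^ (1 - θ / 2)} Λ(d)`, which is at least `Λ`, whose mean value is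
`1 + F`, and which is well distributed in the arithmetic progressions of the moduli `q r`, `r` small.
-/

set_option autoImplicit false

namespace Pool.Agent.Results.MP_3df474_nt.EveryModulusFiveSixths

open Finset
open Pool.Agent.H560R3.GB (sing)

/-- the number of the primes `p` with `u < p ≤ v` such that `4 p + 1 + s` is a prime -/
def pairs (s u v : ℕ) : ℕ := ((Ioc u v).filter (fun p => p.Prime ∧ (4 * p + 1 + s).Prime)).card

/-- Every window `(u, v] ⊆ (0, N]` of length at least `N / (log N) ^ A` contains between `lo` times and `hi` times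
`𝔖(s + 1) (v - u) / (log N)²` primes `p` such that `4 p + 1 + s` is a prime. -/
def Good (A : ℕ) (lo hi : ℝ) (N s : ℕ) : Prop :=
  ∀ u v : ℕ, v ≤ N → (N : ℝ) / Real.log N ^ A ≤ (v : ℝ) - u →
    lo * (sing (s + 1) * ((v : ℝ) - u) / Real.log N ^ 2) ≤ (pairs s u v : ℝ) ∧
    (pairs s u v : ℝ) ≤ hi * (sing (s + 1) * ((v : ℝ) - u) / Real.log N ^ 2)

open Classical in
/-- the even `s < N` with `s ≡ a (mod q)` which are not good -/
noncomputable def bad (A : ℕ) (lo hi : ℝ) (N q : ℕ) (a : ℤ) : Finset ℕ :=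
  (range N).filter (fun s : ℕ => Even s ∧ (s : ℤ) ≡ a [ZMOD q] ∧ ¬ Good A lo hi N s)

/-- the function `F(u) = log u + ∫_1^(u/2) log ((u - s) / s) ds / s` -/
noncomputable def F (u : ℝ) : ℝ := Real.log u + ∫ s in (1 : ℝ)..max 1 (u / 2), Real.log ((u - s) / s) / s

/-- the factor `4` does not change the singular series -/
lemma sing_four (n : ℕ) (hn : n ≠ 0) : sing (4 * n) = sing n := by
  unfold sing
  have h4 : (4 * n).primeFactors.filter (fun p => 2 < p) = n.primeFactors.filter (fun p => 2 < p) := by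
    ext p
    rw [mem_filter, mem_filter, Nat.mem_primeFactors, Nat.mem_primeFactors]
    constructor
    · rintro ⟨⟨h1, h2, -⟩, h3⟩
      refine ⟨⟨h1, ?_, hn⟩, h3⟩
      rcases (Nat.Prime.dvd_mul h1).1 h2 with h | h
      · exfalso
        have h5 : p ∣ 2 := h1.dvd_of_dvd_pow (show p ∣ 2 ^ 2 by norm_num; exact h)
        have := Nat.le_of_dvd (by norm_num) h5
        omega
      · exact h
    · rintro ⟨⟨h1, h2, -⟩, h3⟩
      exact ⟨⟨h1, h2.mul_left 4, by omega⟩, h3⟩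
  rw [h4]

/-- Let `2 / 3 ≤ θ ≤ 5 / 6` and `F = F (θ / (2 - 2 θ))`. Then `0 ≤ F ≤ 0.965`, and for all `ε, ρ > 0` and all `A, T`,
for all large `N`, every modulus `q = q₁ q₂ ≤ N ^ (θ - ρ)` with `q₁ ≤ (log N) ^ T` and `q₂` odd, and every class `a` with
`gcd(a + 1, q) ≤ (log N) ^ T`, all but at most `N / (q (log N) ^ A)` of the even `s < N`, `s ≡ a (mod q)`, are good with
the constants `1 - F² - ε` and `1 + F + ε`. For all large odd `q` and each class `a` with `gcd(a + 1, q) ≤ (log q) ^ T`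
there are an even `s ≡ a (mod q)` and a prime `p` such that `4 p + 1 + s` is a prime at most `q ^ (6 / 5 + ε)`. -/
theorem result :
    (∀ θ : ℝ, 2 / 3 ≤ θ → θ ≤ 5 / 6 →
      (0 ≤ F (θ / (2 - 2 * θ)) ∧ F (θ / (2 - 2 * θ)) ≤ 0.965) ∧
      ∀ ε : ℝ, 0 < ε → ∀ ρ : ℝ, 0 < ρ → ∀ A T : ℕ, ∃ N₀ : ℕ, ∀ N : ℕ, N₀ ≤ N → ∀ q₁ q₂ : ℕ, 1 ≤ q₁ →
        (q₁ : ℝ) ≤ Real.log N ^ T → Odd q₂ → ((q₁ * q₂ : ℕ) : ℝ) ≤ (N : ℝ) ^ (θ - ρ) →
        ∀ a : ℤ, (Int.gcd (a + 1) (q₁ * q₂ : ℕ) : ℝ) ≤ Real.log N ^ T →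
          ((bad A (1 - F (θ / (2 - 2 * θ)) ^ 2 - ε) (1 + F (θ / (2 - 2 * θ)) + ε) N (q₁ * q₂) a).card : ℝ) ≤
            N / ((q₁ * q₂ : ℕ) * Real.log N ^ A)) ∧
    (∀ ε : ℝ, 0 < ε → ∀ T : ℕ, ∃ q₀ : ℕ, ∀ q : ℕ, q₀ ≤ q → Odd q →
      ∀ a : ℤ, (Int.gcd (a + 1) q : ℝ) ≤ Real.log q ^ T →
      ∃ s p : ℕ, Even s ∧ (s : ℤ) ≡ a [ZMOD q] ∧ p.Prime ∧ (4 * p + 1 + s).Prime ∧
        ((4 * p + 1 + s : ℕ) : ℝ) ≤ (q : ℝ) ^ (6 / 5 + ε)) := by
  classical
  refine ⟨fun θ hθ0 hθ1 => ?_, fun ε hε T => ?_⟩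
  · have hFU : ∀ u, F u = Pool.Agent.T2h83.GT.FU u := fun u => rfl
    obtain ⟨hb0, hb1⟩ := Pool.Agent.T2h83.GT.FU_bd hθ0 hθ1
    rw [hFU]
    refine ⟨⟨hb0, by linarith⟩, fun ε hε ρ hρ A T => ?_⟩
    obtain ⟨G, hG⟩ : ∃ G, G = Pool.Agent.T2h83.GT.FU (θ / (2 - 2 * θ)) := ⟨_, rfl⟩
    obtain ⟨x₀, h1⟩ := Pool.Agent.T2h83.GD.gd_all (m := 4) (by norm_num) ε hε hθ0 hθ1 ρ hρ A T
    rw [← hG] at h1 ⊢
    obtain ⟨N₁, hN₁⟩ := exists_nat_ge x₀
    refine ⟨N₁, fun N hN q₁ q₂ hq₁ hq₁T hq₂ hqN a ha => ?_⟩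
    have hq₂0 : 0 < q₂ := hq₂.pos
    have hNN : x₀ ≤ N := hN₁.trans (by exact_mod_cast hN)
    have hcop : Nat.Coprime q₂ 4 := by
      have h2 : Nat.Coprime q₂ (2 ^ 2) := Nat.Coprime.pow_right 2 (Nat.coprime_two_right.2 hq₂)
      norm_num at h2
      exact h2
    obtain ⟨g1, g2⟩ := h1 N hNN q₁ q₂ (Nat.mul_pos hq₁ hq₂0) hq₁T hcop hqN (a + 1) ha
    refine le_trans ?_ g2
    -- the exceptional set
    have hinj : Function.Injective (fun s : ℕ => s + 1) := add_left_injective 1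
    have hsub : (fun s : ℕ => s + 1) '' ((bad A (1 - G ^ 2 - ε) (1 + G + ε) N (q₁ * q₂) a : Finset ℕ) : Set ℕ) ⊆
        Pool.Agent.T2h83.GD.exceptional 4 A (1 - G ^ 2 - ε) (1 + G + ε) N (q₁ * q₂) (a + 1) := by
      rintro _ ⟨s, hs, rfl⟩
      rw [mem_coe] at hs
      unfold bad at hs
      rw [mem_filter, mem_range] at hs
      obtain ⟨b1, b2, b3, b4⟩ := hs
      refine ⟨Nat.succ_pos s, by exact_mod_cast b1, Dvd.dvd.mul_right (by norm_num) _, ?_, ?_, fun hgood => b4 ?_⟩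
      · have h2 : Nat.Coprime (s + 1) (2 ^ 2) := Nat.Coprime.pow_right 2 (Nat.coprime_two_right.2 b2.add_one)
        norm_num at h2
        exact h2
      · push_cast at b3 ⊢
        exact b3.add_right 1
      · intro u v hv huv
        obtain ⟨k1, k2⟩ := hgood u v (Nat.cast_nonneg u) (by exact_mod_cast hv) huv
        rw [sing_four (s + 1) (by omega)] at k1 k2
        have e : Pool.Agent.T2h83.GD.pairs 4 (s + 1) u v = pairs s u v := by
          rw [Pool.Agent.T2h83.GD.pairs_eq 4 (s + 1) u v (Nat.cast_nonneg u) (Nat.cast_nonneg v), Nat.floor_natCast,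
            Nat.floor_natCast]
          unfold Pool.Agent.T2h83.GD.cntD pairs
          have e1 : ∀ p : ℕ, 4 * p + (s + 1) = 4 * p + 1 + s := fun p => by ring
          simp only [e1]
        rw [e] at k1 k2
        exact ⟨k1, k2⟩
    have h3 := Set.ncard_le_ncard hsub g1
    rw [Set.ncard_image_of_injective _ hinj, Set.ncard_coe_finset] at h3
    exact_mod_cast h3
  · obtain ⟨q₀, h1⟩ := Pool.Agent.T2h83.GD.least_m (m := 4) (by norm_num) ε hε T
    refine ⟨q₀, fun q hq hodd a ha => ?_⟩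
    have hcop : Nat.Coprime q (2 * 4) := by
      have h2 : Nat.Coprime q (2 ^ 3) := Nat.Coprime.pow_right 3 (Nat.coprime_two_right.2 hodd)
      norm_num at h2 ⊢
      exact h2
    obtain ⟨h, p, k1, k2, k3, k4, k5, k6⟩ := h1 q hq hcop (a + 1) ha
    have e1 : 4 * p + 1 + (h - 1) = 4 * p + h := by omega
    refine ⟨h - 1, p, ?_, ?_, k4, by rw [e1]; exact k5, by rw [e1]; exact k6⟩
    · have h2 : h ≡ 5 [MOD 8] := k2
      have h3 : h % 8 = 5 := h2
      rw [Nat.even_iff]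
      omega
    · rw [Nat.cast_sub (by omega), Nat.cast_one]
      have := k3.sub_right 1
      simpa using this

end Pool.Agent.Results.MP_3df474_nt.EveryModulusFiveSixths
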