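import Mathlib
import Pool.Agent.T2h83.TH.QThin

/-!
# Primes `p` with `4 p + 1 + s` prime, for `s` in thin sets in all the residue classes of almost all moduli

For almost all moduli `q` and for EVERY set `S` of shifts which lies in one residue class modulo `q` and has, up to a power of
`log N`, not more additive energy (of some order `t`) than the whole class, almost all the even `s ∈ S` satisfy the conjecture
of Hardy and Littlewood on the number of the primes `p ≤ N` for which `4 p + 1 + s` is prime. Such sets can have as few as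
`(N / q) ^ (1 / t)` elements. For instance `S` can be the set of the values of a quadratic polynomial at the elements of a
residue class modulo `q`, for `q` up to `N ^ (1 / 4)`.

Method: Parseval and Hoelder with the moment of order `2 t` of the exponential sum of `S`, whose absolute value has the
period `1 / q`, and the bound of project AM for the mean square of the exponential sum of `Λ` minus a sieve model over the
translates by the multiples of `1 / q`; for the quadratic polynomials the mean value of Vinogradov for three variables.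
-/

set_option autoImplicit false

namespace Pool.Agent.Results.MP_3df474_nt.ThinSetsOfShifts

open Finset Filter

/-- the number of the primes `p ≤ N` for which `4 p + 1 + s` is prime -/
def pairs (s N : ℕ) : ℕ := ((Icc 1 N).filter (fun p : ℕ => p.Prime ∧ (4 * p + 1 + s).Prime)).card

/-- twice the product over the primes `2 < l ≤ z` of `l / (l - 1)` for the divisors `l` of `1 + s` and of
`l (l - 2) / (l - 1) ^ 2` for the other primes `l` -/
noncomputable def constant (s z : ℕ) : ℝ :=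
  2 * ∏ l ∈ (Icc 3 z).filter Nat.Prime, if l ∣ 1 + s then (l : ℝ) / (l - 1) else (l : ℝ) * (l - 2) / (l - 1) ^ 2

/-- for even `s`: the asymptotic formula for `pairs s N`, up to the factors `1 ± ε`, with the limit `S ≥ κ` of `constant s z`,
`z → ∞` -/
def Predicted (κ ε : ℝ) (N s : ℕ) : Prop :=
  Even s → ∃ S : ℝ, κ ≤ S ∧ Tendsto (constant s) atTop (nhds S) ∧
    |(pairs s N : ℝ) - S * N / Real.log N ^ 2| ≤ ε * (S * N / Real.log N ^ 2)

open Pool.Agent.T2h83.AM in
lemma nu_odd (h l : ℕ) (hl : l.Prime) (h3 : 3 ≤ l) :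
    nuL (fun _ : Fin 1 => 4) (fun _ => h) l = if l ∣ h then 1 else 2 := by
  have : Fact l.Prime := ⟨hl⟩
  have h4 : ¬ l ∣ 4 := by
    intro hd
    have h5 : l ∣ 2 ^ 2 := by simpa using hd
    have := Nat.le_of_dvd (by norm_num) (hl.dvd_of_dvd_pow h5)
    omega
  split_ifs with hd
  · unfold nuL
    rw [card_eq_one]
    refine ⟨0, ?_⟩
    ext n
    rw [mem_filter, mem_range, mem_singleton]
    constructor
    · rintro ⟨h1, h2 | ⟨i, hi⟩⟩
      · exact Nat.eq_zero_of_dvd_of_lt h2 h1
      · have h5 : l ∣ 4 * n := (Nat.dvd_add_left hd).1 hi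
        exact Nat.eq_zero_of_dvd_of_lt ((hl.dvd_mul.1 h5).resolve_left h4) h1
    · rintro rfl
      exact ⟨hl.pos, Or.inl (dvd_zero _)⟩
  · have h1 := nuL_le (k := 1) (fun _ : Fin 1 => 4) (fun _ => h) l hl (fun _ h => h4 h.1)
    have hh : 1 ≤ h := Nat.pos_of_ne_zero (fun h0 => hd (h0 ▸ dvd_zero _))
    have h2 := nuL_good (k := 1) (fun _ : Fin 1 => 4) (fun _ => h)
      ⟨fun _ => hh, fun i j hij => absurd (Subsingleton.elim i j) hij⟩ l hl (fun _ => h4) (by
        unfold badL
        rw [mem_union, mem_biUnion, mem_biUnion]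
        rintro (⟨i, -, hi⟩ | ⟨t, ht, -⟩)
        · exact hd (Nat.dvd_of_mem_primeFactors hi)
        · rw [mem_filter] at ht
          exact ht.2 (Subsingleton.elim _ _))
    omega

open Pool.Agent.T2h83.AM in
lemma nu_two (h : ℕ) (hh : Odd h) : nuL (fun _ : Fin 1 => 4) (fun _ => h) 2 = 1 := by
  unfold nuL
  rw [card_eq_one]
  refine ⟨0, ?_⟩
  ext n
  rw [mem_filter, mem_range, mem_singleton]
  constructor
  · rintro ⟨h1, h2 | ⟨i, hi⟩⟩
    · exact Nat.eq_zero_of_dvd_of_lt h2 h1
    · obtain ⟨m, rfl⟩ := hh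
      simp only at hi
      omega
  · rintro rfl
    exact ⟨by norm_num, Or.inl (dvd_zero _)⟩

open Pool.Agent.T2h83.AM in
lemma constant_eq (s z : ℕ) (hs : Even s) (hz : 2 ≤ z) : sgL (fun _ : Fin 1 => 4) (fun _ => 1 + s) z = constant s z := by
  unfold sgL constant Pool.Agent.H373R2.T7.pz
  have h1 : (Icc 1 z).filter Nat.Prime = insert 2 ((Icc 3 z).filter Nat.Prime) := by
    ext p
    rw [mem_insert, mem_filter, mem_filter, mem_Icc, mem_Icc]
    constructor
    · rintro ⟨⟨h1, h2⟩, h3⟩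
      have := h3.two_le
      rcases Nat.eq_or_lt_of_le this with h4 | h4
      · exact Or.inl h4.symm
      · exact Or.inr ⟨⟨h4, h2⟩, h3⟩
    · rintro (rfl | ⟨⟨h1, h2⟩, h3⟩)
      · exact ⟨⟨by norm_num, hz⟩, Nat.prime_two⟩
      · exact ⟨⟨by omega, h2⟩, h3⟩
  rw [h1, prod_insert (by
    intro h2
    rw [mem_filter, mem_Icc] at h2
    omega)]
  congr 1
  · unfold FpL
    rw [nu_two _ (by rw [add_comm]; exact hs.add_one)]
    norm_num
  · refine prod_congr rfl fun l hl => ?_
    rw [mem_filter, mem_Icc] at hl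
    unfold FpL
    rw [nu_odd _ _ hl.2 hl.1.1]
    have hl3 : (3 : ℝ) ≤ l := by exact_mod_cast hl.1.1
    have e1 : (l : ℝ) - 1 ≠ 0 := by
      have : (0 : ℝ) < l - 1 := by linarith
      exact this.ne'
    have e2 : (l : ℝ) ≠ 0 := by positivity
    have e3 : (1 : ℝ) - 1 / l = (l - 1) / l := by field_simp
    rw [e3]
    split_ifs
    · push_cast
      field_simp
    · push_cast
      field_simp

lemma adm (s : ℕ) (hs : Even s) : Pool.Agent.T2h83.AM.AdmL (fun _ : Fin 1 => 4) (fun _ => 1 + s) := by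
  intro l hl
  by_cases h2 : l = 2
  · subst h2
    refine ⟨1, by norm_num, fun _ => ?_⟩
    obtain ⟨m, rfl⟩ := hs
    simp only
    omega
  · have h3 : 3 ≤ l := by
      have := hl.two_le
      omega
    have h1 : Pool.Agent.T2h83.AM.nuL (fun _ : Fin 1 => 4) (fun _ => 1 + s) l ≤ 2 := by
      rw [nu_odd _ _ hl h3]
      split_ifs <;> norm_num
    by_contra hcon
    push Not at hcon
    have h4 : Pool.Agent.T2h83.AM.nuL (fun _ : Fin 1 => 4) (fun _ => 1 + s) l = l := by
      unfold Pool.Agent.T2h83.AM.nuL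
      rw [filter_true_of_mem, card_range]
      intro n _
      by_cases h5 : l ∣ n
      · exact Or.inl h5
      · exact Or.inr (hcon n h5)
    omega

/-- the number of the pairs of `t`-tuples of elements of `S` with the same sum -/
def energy (t : ℕ) (S : Finset ℕ) : ℕ :=
  (((Fintype.piFinset (fun _ : Fin t => S)) ×ˢ (Fintype.piFinset (fun _ : Fin t => S))).filter
    (fun x => ∑ i, x.1 i = ∑ i, x.2 i)).card

/-- `S` is a set of numbers below `N` in one residue class modulo `q` and the number `energy t S` is at most `(log N) ^ T` times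
`|S| ^ (2 t) q / N` -/
def ThinSet (t T N q : ℕ) (S : Finset ℕ) : Prop :=
  (∀ s ∈ S, s < N) ∧ (∃ r : ℕ, ∀ s ∈ S, s % q = r % q) ∧
    (energy t S : ℝ) ≤ (S.card : ℝ) ^ (2 * t) * q * Real.log N ^ T / N

open Pool.Agent.T2h83.AM in
lemma predicted_of {κ ε : ℝ} {N s : ℕ} (h4 : GoodC ε κ N (fun _ : Fin 1 => 4) (fun _ => 1 + s)) : Predicted κ ε N s := by
  intro hs
  obtain ⟨S, g1, g2, g3⟩ := h4 (adm s hs)
  refine ⟨S, g1, ?_, ?_⟩
  · refine g2.congr' ?_
    filter_upwards [eventually_ge_atTop 2] with z hz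
    exact constant_eq s z hs hz
  · have : Pool.Agent.T2h83.AM.cntL (fun _ : Fin 1 => 4) (fun _ => 1 + s) N = pairs s N := by
      unfold Pool.Agent.T2h83.AM.cntL pairs
      congr 1
      ext p
      rw [mem_filter, mem_filter]
      refine and_congr_right fun _ => and_congr_right fun _ => ?_
      constructor
      · intro h
        have := h 0
        rwa [← add_assoc] at this
      · intro h _
        rwa [← add_assoc]
    rw [this] at g3
    exact g3

open Classical in
/-- There is a constant `κ > 0` such that for all `A`, `T` and `ε > 0` the following holds.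

(1) For every `t ≥ 1` there are `B` and `N₀` such that for all `N ≥ N₀` and all integers `Q` with `Q log ^ B N ≤ N`, for all `q` in
`(Q, 2 Q]`, except for at most `Q / log ^ A N` of them, and for EVERY set `S` with `ThinSet t T N q S` at most
`|S| / log ^ A N` elements `s` of `S` do not satisfy: if `s` is even, the number of the primes `p ≤ N` for which `4 p + 1 + s` is
prime lies between `(1 - ε) S N / log ^ 2 N` and `(1 + ε) S N / log ^ 2 N`, where `S ≥ κ` is twice the product over the primes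
`l > 2` of `l / (l - 1)` if `l` divides `1 + s` and of `l (l - 2) / (l - 1) ^ 2` if not.

(2) There are `B` and `N₀` such that for all `N ≥ N₀` and all integers `Q` with `Q log ^ B N ≤ N`, for all `q` in `(Q, 2 Q]`, except
for at most `Q / log ^ A N` of them, and for ALL `a, b, c, ρ, V` with `a, V ≥ 1`, `N ≤ (q V) ^ 2 log ^ T N`, `q ≤ V log ^ T N` and
`gcd (2 a ρ + b, q) ≤ log ^ T N` for which the values `s (v) = a k ^ 2 + b k + c`, `k = ρ + q v`, `0 ≤ v < V`, are below `N`, the
number of the `v < V` for which `s (v)` does not satisfy the property of (1) is at most `V / log ^ A N`. -/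
theorem result : ∃ κ : ℝ, 0 < κ ∧ ∀ (A T : ℕ) (ε : ℝ), 0 < ε →
    (∀ t : ℕ, 1 ≤ t → ∃ B N₀ : ℕ, ∀ N : ℕ, N₀ ≤ N → ∀ Q : ℕ, (Q : ℝ) * Real.log N ^ B ≤ N →
      ∃ E : Finset ℕ, (E.card : ℝ) ≤ Q / Real.log N ^ A ∧ ∀ q ∈ Ioc Q (2 * Q), q ∉ E →
        ∀ S : Finset ℕ, ThinSet t T N q S →
          ((S.filter (fun s => ¬ Predicted κ ε N s)).card : ℝ) ≤ (S.card : ℝ) / Real.log N ^ A) ∧
    (∃ B N₀ : ℕ, ∀ N : ℕ, N₀ ≤ N → ∀ Q : ℕ, (Q : ℝ) * Real.log N ^ B ≤ N →
      ∃ E : Finset ℕ, (E.card : ℝ) ≤ Q / Real.log N ^ A ∧ ∀ q ∈ Ioc Q (2 * Q), q ∉ E →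
        ∀ a b c ρ V : ℕ, 1 ≤ a → 1 ≤ V → (∀ v < V, a * (ρ + q * v) ^ 2 + b * (ρ + q * v) + c < N) →
          (N : ℝ) ≤ (q * V : ℝ) ^ 2 * Real.log N ^ T → (q : ℝ) ≤ V * Real.log N ^ T →
          (Nat.gcd (2 * a * ρ + b) q : ℝ) ≤ Real.log N ^ T →
          (((range V).filter (fun v => ¬ Predicted κ ε N (a * (ρ + q * v) ^ 2 + b * (ρ + q * v) + c))).card : ℝ) ≤
            (V : ℝ) / Real.log N ^ A) := by
  obtain ⟨κ, hκ, hmain⟩ := Pool.Agent.T2h83.TH.thin_count (k := 1) (fun _ => 4) (fun _ => by norm_num)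
  refine ⟨κ, hκ, fun A T ε hε => ?_⟩
  have key : ∀ t T : ℕ, 1 ≤ t → ∃ B N₀ : ℕ, ∀ N : ℕ, N₀ ≤ N → ∀ Q : ℕ, (Q : ℝ) * Real.log N ^ B ≤ N →
      ∃ E : Finset ℕ, (E.card : ℝ) ≤ Q / Real.log N ^ A ∧ ∀ q ∈ Ioc Q (2 * Q), q ∉ E →
        ∀ S : Finset ℕ, ThinSet t T N q S →
          ((S.filter (fun s => ¬ Predicted κ ε N s)).card : ℝ) ≤ (S.card : ℝ) / Real.log N ^ A := by
    intro t T ht
    obtain ⟨B, N₀, h1⟩ := hmain A t T ε ht hε
    refine ⟨B, N₀, fun N hN Q hQ => ?_⟩
    obtain ⟨E, hE1, hE2⟩ := h1 N hN Q hQ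
    refine ⟨E, hE1, fun q hq hqE S hS => ?_⟩
    obtain ⟨hS1, hS2, hS3⟩ := hS
    have hT : Pool.Agent.T2h83.TH.Thin t T N q (S.image (fun s => 1 * s + 1)) :=
      Pool.Agent.T2h83.TH.thin_image 1 1 le_rfl (fun s hs => by have := hS1 s hs; omega) hS2 hS3
    have h2 := hE2 q hq hqE (fun _ => S.image (fun s => 1 * s + 1)) (fun _ => hT)
    rw [Fin.prod_univ_one, Pool.Agent.T2h83.TH.card_image_aff S 1 1 le_rfl] at h2
    refine le_trans ?_ h2
    have h3 : (S.filter (fun s => ¬ Predicted κ ε N s)).card ≤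
        ((Fintype.piFinset (fun _ : Fin 1 => S.image (fun s => 1 * s + 1))).filter
          (fun h => ¬ Pool.Agent.T2h83.AM.GoodC ε κ N (fun _ : Fin 1 => 4) h)).card := by
      apply card_le_card_of_injOn (fun s => (fun _ : Fin 1 => 1 * s + 1))
      · intro s hs
        rw [mem_coe, mem_filter] at hs
        rw [mem_coe, mem_filter, Fintype.mem_piFinset]
        refine ⟨fun _ => mem_image.2 ⟨s, hs.1, rfl⟩, fun hcon => hs.2 ?_⟩
        apply predicted_of
        have e : (1 + s) = 1 * s + 1 := by ring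
        rw [e]
        exact hcon
      · intro s _ s' _ h
        have := congrFun h 0
        simp only at this
        omega
    exact_mod_cast h3
  refine ⟨fun t ht => key t T ht, ?_⟩
  obtain ⟨B, N₀, h1⟩ := key 3 (2 * T + 10) (by norm_num)
  obtain ⟨N₁, h2⟩ := Pool.Agent.T2h83.TH.quad_thin T
  refine ⟨B, N₀ + N₁, fun N hN Q hQ => ?_⟩
  obtain ⟨E, hE1, hE2⟩ := h1 N (by omega) Q hQ
  refine ⟨E, hE1, fun q hq hqE a b c ρ V ha hV hle hNV hqV hg => ?_⟩
  have hq1 : 1 ≤ q := by rw [mem_Ioc] at hq; omega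
  obtain ⟨h3, h4⟩ := h2 N (by omega) a b c q ρ V ha hq1 hV (fun v hv => (hle v hv).le) hNV hqV hg
  have h5 := hE2 q hq hqE ((range V).image (fun v => a * (ρ + q * v) ^ 2 + b * (ρ + q * v) + c)) ⟨fun s hs => by
    rw [mem_image] at hs
    obtain ⟨v, hv, rfl⟩ := hs
    exact hle v (mem_range.1 hv), h3, h4⟩
  rw [card_image_of_injOn (Pool.Agent.T2h83.TH.quad_inj ha hq1), card_range] at h5
  refine le_trans ?_ h5
  have h6 : ((range V).filter (fun v => ¬ Predicted κ ε N (a * (ρ + q * v) ^ 2 + b * (ρ + q * v) + c))).card ≤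
      (((range V).image (fun v => a * (ρ + q * v) ^ 2 + b * (ρ + q * v) + c)).filter (fun s => ¬ Predicted κ ε N s)).card := by
    apply card_le_card_of_injOn (fun v => a * (ρ + q * v) ^ 2 + b * (ρ + q * v) + c)
    · intro v hv
      rw [mem_coe, mem_filter] at hv
      rw [mem_coe, mem_filter]
      exact ⟨mem_image.2 ⟨v, hv.1, rfl⟩, hv.2⟩
    · intro v hv w hw h
      rw [mem_coe, mem_filter] at hv hw
      exact Pool.Agent.T2h83.TH.quad_inj (V := V) ha hq1 hv.1 hw.1 h
  exact_mod_cast h6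

end Pool.Agent.Results.MP_3df474_nt.ThinSetsOfShifts
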